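import Pool.Agent.helper9.HQ.Spec

/-!
# Project hq, row LOC: localisation
-/

set_option autoImplicit false

open scoped Classical

namespace Pool.Agent.helper9.HQ

open Finset
open Pool.Agent.helper65.HC (V IsEig IsTop lam)

noncomputable section

/-- The members of `U` which contain `w`. -/
def LOC_X {d : ℕ} (U : Fam d) (w : Finset (Fin d)) : Fam d := U.filter fun x => w ⊆ x

/-- The mass of the members which contain `w`. -/
def LOC_q {d : ℕ} (U : Fam d) (f : Finset (Fin d) → ℝ) (w : Finset (Fin d)) : ℝ :=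
  ∑ x ∈ LOC_X U w, f x ^ 2

/-- The inner sums. -/
def LOC_T {d : ℕ} (f : Finset (Fin d) → ℝ) (w y : Finset (Fin d)) : ℝ :=
  ∑ j ∈ y \ w, f y * f (y.erase j)

theorem LOC_lkSum {d : ℕ} (U : Fam d) (hU : Dn U) (i : Fin d) (F : Finset (Fin d) → ℝ) :
    ∑ x ∈ lk i U, F (insert i x) = ∑ y ∈ U.filter (fun y => i ∈ y), F y := by
  refine Finset.sum_nbij' (fun x => insert i x) (fun y => y.erase i) ?_ ?_ ?_ ?_ ?_
  · intro x hx
    unfold lk at hx
    rw [mem_filter] at hx ⊢
    exact ⟨hx.2.2, mem_insert_self i x⟩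
  · intro y hy
    rw [mem_filter] at hy
    unfold lk
    rw [mem_filter]
    refine ⟨hU y hy.1 _ (erase_subset i y), notMem_erase i y, ?_⟩
    rw [insert_erase hy.2]
    exact hy.1
  · intro x hx
    unfold lk at hx
    rw [mem_filter] at hx
    exact erase_insert hx.2.1
  · intro y hy
    rw [mem_filter] at hy
    exact insert_erase hy.2
  · intro x _
    rfl

theorem LOC_first {d : ℕ} (U : Fam d) (hU : Dn U) (f : Finset (Fin d) → ℝ) (L : ℝ)
    (w : Finset (Fin d)) (i : Fin d) (hi : i ∈ w) (hL : Le (lk i U) L) :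
    2 * ∑ y ∈ LOC_X U w, LOC_T f w y ≤ L * LOC_q U f w := by
  set h : Finset (Fin d) → ℝ := fun x => if w ⊆ insert i x then f (insert i x) else 0 with hh
  have h1 := hL h
  have hX : ∀ F : Finset (Fin d) → ℝ,
      ∑ y ∈ U.filter (fun y => i ∈ y), (if w ⊆ y then F y else 0) = ∑ y ∈ LOC_X U w, F y := by
    intro F
    unfold LOC_X
    rw [← sum_filter, filter_filter]
    refine Finset.sum_congr ?_ fun _ _ => rfl
    ext y
    simp only [mem_filter]
    constructor
    · rintro ⟨a, -, b⟩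
      exact ⟨a, b⟩
    · rintro ⟨a, b⟩
      exact ⟨a, b hi, b⟩
  have hN : N (lk i U) h = LOC_q U f w := by
    unfold N LOC_q
    rw [← hX, ← LOC_lkSum U hU i]
    refine Finset.sum_congr rfl fun x _ => ?_
    simp only [hh]
    split_ifs
    · rfl
    · norm_num
  have hE : E (lk i U) h = 2 * ∑ y ∈ LOC_X U w, LOC_T f w y := by
    unfold E
    rw [← hX, ← LOC_lkSum U hU i]
    congr 1
    refine Finset.sum_congr rfl fun x hx => ?_
    have hx' : x ∈ U ∧ i ∉ x ∧ insert i x ∈ U := by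
      unfold lk at hx
      rw [mem_filter] at hx
      exact hx
    by_cases hw : w ⊆ insert i x
    · rw [if_pos hw]
      unfold LOC_T
      have hsd : insert i x \ w = x \ w := insert_sdiff_of_mem x hi
      rw [hsd]
      have h2 : x \ w = x.filter (fun j => j ∉ w) := by
        ext j
        simp only [mem_sdiff, mem_filter]
      rw [h2, sum_filter]
      refine Finset.sum_congr rfl fun j hj => ?_
      have hji : j ≠ i := fun e => hx'.2.1 (e ▸ hj)
      have hins : insert i (x.erase j) = (insert i x).erase j := by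
        rw [erase_insert_of_ne hji.symm]
      simp only [hh]
      rw [if_pos hw, hins]
      by_cases hjw : j ∈ w
      · rw [if_neg (fun e => (notMem_erase j (insert i x)) (e hjw)), if_neg (fun e => e hjw),
          mul_zero]
      · rw [if_pos (subset_erase.2 ⟨hw, hjw⟩), if_pos hjw]
    · rw [if_neg hw]
      refine Finset.sum_eq_zero fun j _ => ?_
      simp only [hh]
      rw [if_neg hw, zero_mul]
  rw [hN, hE] at h1
  exact h1

theorem LOC_up {d : ℕ} (U : Fam d) (hU : Dn U) (f : Finset (Fin d) → ℝ) (w : Finset (Fin d)) :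
    ∑ x ∈ LOC_X U w, ∑ i ∈ univ.filter (fun i => i ∉ x ∧ insert i x ∈ U), f x * f (insert i x) =
      ∑ y ∈ LOC_X U w, LOC_T f w y := by
  unfold LOC_T
  rw [Finset.sum_sigma', Finset.sum_sigma']
  refine Finset.sum_nbij' (fun p => ⟨insert p.2 p.1, p.2⟩) (fun p => ⟨p.1.erase p.2, p.2⟩)
    ?_ ?_ ?_ ?_ ?_
  · rintro ⟨x, i⟩ hp
    rw [mem_sigma] at hp ⊢
    obtain ⟨hx, hi⟩ := hp
    dsimp only at hx hi ⊢
    unfold LOC_X at hx ⊢
    rw [mem_filter] at hx hi ⊢
    refine ⟨⟨hi.2.2, hx.2.trans (subset_insert _ _)⟩, ?_⟩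
    rw [mem_sdiff]
    exact ⟨mem_insert_self i x, fun e => hi.2.1 (hx.2 e)⟩
  · rintro ⟨y, j⟩ hp
    rw [mem_sigma] at hp ⊢
    obtain ⟨hy, hj⟩ := hp
    dsimp only at hy hj ⊢
    unfold LOC_X at hy ⊢
    rw [mem_filter] at hy ⊢
    rw [mem_filter]
    rw [mem_sdiff] at hj
    refine ⟨⟨hU y hy.1 _ (erase_subset _ _), subset_erase.2 ⟨hy.2, hj.2⟩⟩, mem_univ _,
      notMem_erase _ _, ?_⟩
    rw [insert_erase hj.1]
    exact hy.1
  · rintro ⟨x, i⟩ hp
    rw [mem_sigma] at hp
    obtain ⟨hx, hi⟩ := hp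
    dsimp only at hx hi ⊢
    rw [mem_filter] at hi
    rw [erase_insert hi.2.1]
  · rintro ⟨y, j⟩ hp
    rw [mem_sigma] at hp
    obtain ⟨hy, hj⟩ := hp
    dsimp only at hy hj ⊢
    rw [mem_sdiff] at hj
    rw [insert_erase hj.1]
  · rintro ⟨x, i⟩ hp
    rw [mem_sigma] at hp
    obtain ⟨hx, hi⟩ := hp
    dsimp only at hx hi ⊢
    rw [mem_filter] at hi
    rw [erase_insert hi.2.1, mul_comm]

theorem LOC_q_nonneg {d : ℕ} (U : Fam d) (f : Finset (Fin d) → ℝ) (w : Finset (Fin d)) :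
    0 ≤ LOC_q U f w := Finset.sum_nonneg fun _ _ => sq_nonneg _

theorem LOC_cs {d : ℕ} (U : Fam d) (hU : Dn U) (f : Finset (Fin d) → ℝ) (w : Finset (Fin d))
    (i : Fin d) (hi : i ∈ w) :
    ∑ x ∈ LOC_X U w, f x * f (x.erase i) ≤ √(LOC_q U f w) * √(LOC_q U f (w.erase i)) := by
  have h1 := Real.sum_mul_le_sqrt_mul_sqrt (LOC_X U w) f (fun x => f (x.erase i))
  refine h1.trans ?_
  refine mul_le_mul_of_nonneg_left (Real.sqrt_le_sqrt ?_) (Real.sqrt_nonneg _)
  have hinj : Set.InjOn (fun x : Finset (Fin d) => x.erase i) (LOC_X U w : Set (Finset (Fin d))) := by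
    intro x hx y hy hxy
    have hx1 : w ⊆ x := by
      have := Finset.mem_coe.1 hx
      unfold LOC_X at this
      exact (mem_filter.1 this).2
    have hy1 : w ⊆ y := by
      have := Finset.mem_coe.1 hy
      unfold LOC_X at this
      exact (mem_filter.1 this).2
    have hxy' : x.erase i = y.erase i := hxy
    rw [← insert_erase (hx1 hi), hxy', insert_erase (hy1 hi)]
  have h2 : ∑ x ∈ LOC_X U w, f (x.erase i) ^ 2 =
      ∑ y ∈ (LOC_X U w).image (fun x => x.erase i), f y ^ 2 :=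
    (Finset.sum_image (f := fun y => f y ^ 2) hinj).symm
  rw [h2]
  unfold LOC_q
  refine Finset.sum_le_sum_of_subset_of_nonneg ?_ fun _ _ _ => sq_nonneg _
  intro y hy
  rw [mem_image] at hy
  obtain ⟨x, hx, rfl⟩ := hy
  unfold LOC_X at hx ⊢
  rw [mem_filter] at hx ⊢
  exact ⟨hU x hx.1 _ (erase_subset _ _), erase_subset_erase i hx.2⟩

theorem LOC_step {d : ℕ} (U : Fam d) (l : ℝ) (f : Finset (Fin d) → ℝ) (kap : ℝ) (hU : Dn U)
    (hE : Eig U l f) (hL : ∀ i, Le (lk i U) ((1 - kap) * l)) (w : Finset (Fin d))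
    (hw : w.Nonempty) :
    kap * l * √(LOC_q U f w) ≤ ∑ i ∈ w, √(LOC_q U f (w.erase i)) := by
  obtain ⟨i₀, hi₀⟩ := hw
  set n : ℝ := √(LOC_q U f w) with hn
  have hnn : n ^ 2 = LOC_q U f w := Real.sq_sqrt (LOC_q_nonneg U f w)
  have hn0 : 0 ≤ n := Real.sqrt_nonneg _
  have hfirst := LOC_first U hU f ((1 - kap) * l) w i₀ hi₀ (hL i₀)
  have hid : l * LOC_q U f w = 2 * ∑ y ∈ LOC_X U w, LOC_T f w y +
      ∑ i ∈ w, ∑ x ∈ LOC_X U w, f x * f (x.erase i) := by
    have h1 : l * LOC_q U f w = ∑ x ∈ LOC_X U w, (LOC_T f w x +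
        ∑ i ∈ w, f x * f (x.erase i) +
        ∑ i ∈ univ.filter (fun i => i ∉ x ∧ insert i x ∈ U), f x * f (insert i x)) := by
      unfold LOC_q
      rw [mul_sum]
      refine Finset.sum_congr rfl fun x hx => ?_
      have hx' : x ∈ U ∧ w ⊆ x := by
        unfold LOC_X at hx
        exact mem_filter.1 hx
      have h2 := hE.eq x hx'.1
      have h3 : ∑ i ∈ x, f (x.erase i) = ∑ i ∈ x \ w, f (x.erase i) + ∑ i ∈ w, f (x.erase i) :=
        (Finset.sum_sdiff hx'.2).symm
      rw [h3] at h2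
      unfold LOC_T
      rw [← mul_sum, ← mul_sum, ← mul_sum, ← mul_add, ← mul_add, ← h2]
      ring
    rw [h1, Finset.sum_add_distrib, Finset.sum_add_distrib, LOC_up U hU f w,
      Finset.sum_comm (s := LOC_X U w) (t := w)]
    ring
  have hsec : ∑ i ∈ w, ∑ x ∈ LOC_X U w, f x * f (x.erase i) ≤
      n * ∑ i ∈ w, √(LOC_q U f (w.erase i)) := by
    rw [mul_sum]
    exact Finset.sum_le_sum fun i hi => LOC_cs U hU f w i hi
  have hmain : kap * l * n ^ 2 ≤ n * ∑ i ∈ w, √(LOC_q U f (w.erase i)) := by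
    rw [hnn]
    nlinarith
  rcases hn0.lt_or_eq with hpos | hzero
  · have h4 : n * (kap * l * n) ≤ n * ∑ i ∈ w, √(LOC_q U f (w.erase i)) := by
      calc n * (kap * l * n) = kap * l * n ^ 2 := by ring
        _ ≤ _ := hmain
    exact le_of_mul_le_mul_left h4 hpos
  · rw [← hzero, mul_zero]
    exact Finset.sum_nonneg fun _ _ => Real.sqrt_nonneg _

theorem LOC_bound {d : ℕ} (U : Fam d) (l : ℝ) (f : Finset (Fin d) → ℝ) (kap : ℝ) (hU : Dn U)
    (hE : Eig U l f) (hk : 0 < kap) (hl : 0 < l) (hL : ∀ i, Le (lk i U) ((1 - kap) * l)) :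
    ∀ (m : ℕ) (w : Finset (Fin d)), w.card = m →
      √(LOC_q U f w) ≤ (m.factorial : ℝ) / (kap * l) ^ m := by
  have hkl : 0 < kap * l := mul_pos hk hl
  intro m
  induction m with
  | zero =>
    intro w hw
    rw [card_eq_zero] at hw
    subst hw
    have h1 : LOC_q U f ∅ = 1 := by
      unfold LOC_q LOC_X
      rw [← hE.nrm]
      unfold N
      refine Finset.sum_congr ?_ fun _ _ => rfl
      ext x
      simp
    rw [h1]
    simp
  | succ m ih =>
    intro w hw
    have hne : w.Nonempty := by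
      rw [← card_pos, hw]
      omega
    have h1 := LOC_step U l f kap hU hE hL w hne
    have h2 : ∑ i ∈ w, √(LOC_q U f (w.erase i)) ≤
        ∑ _i ∈ w, (m.factorial : ℝ) / (kap * l) ^ m := by
      refine Finset.sum_le_sum fun i hi => ih _ ?_
      rw [card_erase_of_mem hi, hw]
      rfl
    rw [sum_const, hw, nsmul_eq_mul] at h2
    have h3 := h1.trans h2
    rw [le_div_iff₀ (pow_pos hkl _)]
    have h4 : √(LOC_q U f w) * (kap * l) ≤ ((m + 1 : ℕ) : ℝ) * ((m.factorial : ℝ) / (kap * l) ^ m) := by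
      rw [mul_comm]
      exact h3
    have h5 := mul_le_mul_of_nonneg_right h4 (pow_pos hkl m).le
    calc √(LOC_q U f w) * (kap * l) ^ (m + 1) = √(LOC_q U f w) * (kap * l) * (kap * l) ^ m := by
          ring
      _ ≤ ((m + 1 : ℕ) : ℝ) * ((m.factorial : ℝ) / (kap * l) ^ m) * (kap * l) ^ m := h5
      _ = ((m + 1).factorial : ℝ) := by
          rw [mul_assoc, div_mul_cancel₀ _ (pow_pos hkl m).ne', Nat.factorial_succ]
          push_cast
          ring

theorem LOC : LOC_stmt := by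
  intro d U l f kap hU hE hk hl hL
  have hkl : 0 < kap * l := mul_pos hk hl
  have h3 : ∀ w : Finset (Fin d), w.card = 3 → LOC_q U f w ≤ 36 / (kap * l) ^ 6 := by
    intro w hw
    have h1 := LOC_bound U l f kap hU hE hk hl hL 3 w hw
    have h2 : (Nat.factorial 3 : ℝ) = 6 := by norm_num [Nat.factorial]
    rw [h2] at h1
    have h4 : √(LOC_q U f w) ^ 2 ≤ (6 / (kap * l) ^ 3) ^ 2 :=
      pow_le_pow_left₀ (Real.sqrt_nonneg _) h1 2
    rw [Real.sq_sqrt (LOC_q_nonneg U f w)] at h4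
    refine h4.trans (le_of_eq ?_)
    rw [div_pow, ← pow_mul]
    norm_num
  have hsum : N (hi U) f ≤ ∑ w ∈ U.filter (fun w => w.card = 3), LOC_q U f w := by
    unfold LOC_q LOC_X
    have h4 : ∀ w : Finset (Fin d), ∑ x ∈ U.filter (fun x => w ⊆ x), f x ^ 2 =
        ∑ x ∈ U, if w ⊆ x then f x ^ 2 else 0 := fun w => sum_filter _ _
    rw [Finset.sum_congr rfl fun w _ => h4 w, Finset.sum_comm]
    unfold N hi
    rw [sum_filter]
    refine Finset.sum_le_sum fun x hx => ?_
    have hnn : ∀ w ∈ U.filter (fun w => w.card = 3), 0 ≤ (if w ⊆ x then f x ^ 2 else 0 : ℝ) := by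
      intro w _
      split_ifs
      · exact sq_nonneg _
      · exact le_rfl
    split_ifs with hc
    · obtain ⟨w, hwx, hwc⟩ := Finset.exists_subset_card_eq hc
      have hwU : w ∈ U.filter (fun w => w.card = 3) := mem_filter.2 ⟨hU x hx w hwx, hwc⟩
      have h5 := Finset.single_le_sum hnn hwU
      rw [if_pos hwx] at h5
      exact h5
    · exact Finset.sum_nonneg hnn
  refine hsum.trans ?_
  have h6 : ∑ w ∈ U.filter (fun w => w.card = 3), LOC_q U f w ≤
      ∑ _w ∈ U.filter (fun w => w.card = 3), 36 / (kap * l) ^ 6 :=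
    Finset.sum_le_sum fun w hw => h3 w (mem_filter.1 hw).2
  refine h6.trans ?_
  rw [sum_const, nsmul_eq_mul]
  have h7 : ((U.filter (fun w => w.card = 3)).card : ℝ) ≤ (U.card : ℝ) := by
    exact_mod_cast card_filter_le _ _
  have h8 : 0 ≤ 36 / (kap * l) ^ 6 := by positivity
  calc _ ≤ (U.card : ℝ) * (36 / (kap * l) ^ 6) := mul_le_mul_of_nonneg_right h7 h8
    _ = _ := by ring

end

end Pool.Agent.helper9.HQ
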